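import Pool.Agent.Helper33.SYM.D4a
import Pool.Agent.Helper28.SYM.D3

/-! Project SYM (MP_9410e4_ag), piece D4: descent of the data to a finite extension. -/

namespace Pool.Agent.Helper33.SYM

open Polynomial

universe u

/-- lifting polynomials in two variables along `K₁ → kb`, monic version -/
theorem lift_two {K₁ kb : Type*} [Field K₁] [Field kb] (ι : K₁ →+* kb) (G : kb[X][X])
    (hG : G.Monic) (h : ∀ i j, (G.coeff j).coeff i ∈ Set.range ι) :
    ∃ G₁ : K₁[X][X], G₁.map (mapRingHom ι) = G ∧ G₁.natDegree = G.natDegree ∧ G₁.Monic := by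
  refine lifts_and_natDegree_eq_and_monic ?_ hG
  rw [lifts_iff_coeff_lifts]
  intro j
  have h1 : G.coeff j ∈ lifts ι := (lifts_iff_coeff_lifts _).2 (fun i => h i j)
  obtain ⟨q, hq⟩ := (mem_lifts _).1 h1
  exact ⟨q, hq⟩

/-- irreducibility over another algebraic closure -/
theorem irreducible_transfer {K₁ kb : Type*} [Field K₁] [Field kb] [Algebra K₁ kb]
    [IsAlgClosure K₁ kb] (G : K₁[X][X])
    (h : Irreducible (G.map (mapRingHom (algebraMap K₁ kb)))) :
    Irreducible (G.map (mapRingHom (algebraMap K₁ (AlgebraicClosure K₁)))) := by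
  let e : kb ≃ₐ[K₁] AlgebraicClosure K₁ := IsAlgClosure.equiv K₁ kb (AlgebraicClosure K₁)
  let E : kb[X][X] ≃+* (AlgebraicClosure K₁)[X][X] := mapEquiv (mapEquiv e.toRingEquiv)
  have h1 : E (G.map (mapRingHom (algebraMap K₁ kb))) =
      G.map (mapRingHom (algebraMap K₁ (AlgebraicClosure K₁))) := by
    change (G.map (mapRingHom (algebraMap K₁ kb))).map (mapRingHom e.toRingEquiv.toRingHom) = _
    rw [map_map, mapRingHom_comp]
    congr 2
    ext a
    exact e.commutes a
  rw [← h1]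
  exact (MulEquiv.irreducible_iff E).2 h

theorem descend_data {K Ω : Type u} [Field K] [CharZero K] [Field Ω] [IsAlgClosed Ω] [Algebra K Ω]
    (t x y : Ω) (Λ : (algebraicClosure K Ω)[X]) (ht : Transcendental K t) (hΛ : Λ ≠ 0)
    (S : Finset Ω)
    (hS : ∀ s ∈ S, s ∈ IntermediateField.adjoin
      (algebraicClosure (IntermediateField.adjoin K {t}) Ω) {x, y}) (d₀ : ℕ) :
    ∃ (K₁ : IntermediateField K Ω) (_ : FiniteDimensional K K₁) (Λ₁ : K₁[X]) (d l : ℕ)
      (Θ : Finset Ω) (η z : Ω) (G : K₁[X][X]),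
      Λ₁.map (algebraMap K₁ Ω) = Λ.map (algebraMap (algebraicClosure K Ω) Ω) ∧ d₀ ≤ d ∧
      (∀ θ ∈ Θ, IsAlgebraic (IntermediateField.adjoin K₁ {t}) θ) ∧
      η ^ 2 = aeval t (((X - C (l : K₁)) ^ d) * ((X - C (l : K₁)) ^ d - 1) *
        ((X - C (l : K₁)) ^ d - Λ₁)) ∧
      η ∉ IntermediateField.adjoin K₁ (insert t (Θ : Set Ω)) ∧
      (∀ s ∈ S, s ∈ IntermediateField.adjoin K₁ ({t, x, y} ∪ (Θ : Set Ω))) ∧
      (∀ θ ∈ Θ, θ ∈ IntermediateField.adjoin K₁ {t, z}) ∧
      η ∈ IntermediateField.adjoin K₁ {t, z} ∧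
      G.Monic ∧ 0 < G.natDegree ∧ G.eval₂ (aeval t : K₁[X] →ₐ[K₁] Ω).toRingHom z = 0 ∧
      Irreducible (G.map (mapRingHom (algebraMap K₁ (AlgebraicClosure K₁)))) := by
  classical
  obtain ⟨Θ, hΘ0, hSΘ⟩ := exists_finset_adjoin' (K := K) {x, y} S hS
  have hΘK : ∀ θ ∈ Θ, IsAlgebraic (IntermediateField.adjoin K {t}) θ := by
    intro θ hθ
    obtain ⟨w, rfl⟩ := hΘ0 θ hθ
    exact mem_algebraicClosure_iff.1 w.2
  have hcl : IsAlgClosure K (algebraicClosure K Ω) := inferInstance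
  have htb : Transcendental (algebraicClosure K Ω) t := fun h => ht (h.restrictScalars K)
  have hΘkb : ∀ θ ∈ Θ, IsAlgebraic (IntermediateField.adjoin (algebraicClosure K Ω) {t}) θ := by
    intro θ hθ
    refine alg_mono (fun m hm => ?_) (hΘK θ hθ)
    refine adjoin_sub (fun k => ?_) (IntermediateField.subset_adjoin _ _) hm
    exact (IntermediateField.adjoin (algebraicClosure K Ω) {t}).algebraMap_mem
      (algebraMap K (algebraicClosure K Ω) k)
  obtain ⟨l, hl⟩ := Pool.Agent.Helper28.SYM.exists_shift t htb Λ hΛ Θ hΘkb (2 * d₀ + 1) ⟨d₀, rfl⟩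
  obtain ⟨η, hη⟩ := IsAlgClosed.exists_pow_nat_eq
    (aeval t (((X - C (l : algebraicClosure K Ω)) ^ (2 * d₀ + 1)) *
      ((X - C (l : algebraicClosure K Ω)) ^ (2 * d₀ + 1) - 1) *
      ((X - C (l : algebraicClosure K Ω)) ^ (2 * d₀ + 1) - Λ))) two_pos
  have hηn := hl η hη
  -- primitive element
  obtain ⟨z, G0, hz, hG0m, hG0d, hG0i, hG0e⟩ := exists_prim t htb (insert η Θ) (by
    intro φ hφ
    rcases Finset.mem_insert.1 hφ with rfl | hφ
    · refine IsAlgebraic.of_pow two_pos ?_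
      rw [hη]
      exact isAlgebraic_algebraMap (⟨_, IntermediateField.algebra_adjoin_le_adjoin _ _
        (aeval_mem_adjoin_singleton _ _)⟩ : IntermediateField.adjoin (algebraicClosure K Ω) {t})
    · exact hΘkb φ hφ)
  obtain ⟨Φ, hΦ, hΦz⟩ := exists_finset_adjoin' (K := K) {t, z} (insert η Θ) hz
  -- the finite extension
  set T : Finset Ω := Φ ∪ (Λ.support.image fun i => (Λ.coeff i : Ω)) ∪
    (G0.support.biUnion fun j => (G0.coeff j).support.image fun i => ((G0.coeff j).coeff i : Ω))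
    with hT
  have hTkb : ∀ a ∈ T, a ∈ algebraicClosure K Ω := by
    intro a ha
    simp only [hT, Finset.mem_union, Finset.mem_image, Finset.mem_biUnion] at ha
    rcases ha with (ha | ⟨i, _, rfl⟩) | ⟨j, _, i, _, rfl⟩
    · obtain ⟨w, rfl⟩ := hΦ a ha
      exact w.2
    · exact (Λ.coeff i).2
    · exact ((G0.coeff j).coeff i).2
  let K₁ : IntermediateField K Ω := IntermediateField.adjoin K (T : Set Ω)
  have hK₁le : K₁ ≤ algebraicClosure K Ω := by
    rw [IntermediateField.adjoin_le_iff]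
    exact fun a ha => hTkb a ha
  have hfin : FiniteDimensional K K₁ := IntermediateField.finiteDimensional_adjoin
    (fun a ha => (mem_algebraicClosure_iff.1 (hTkb a ha)).isIntegral)
  let ι : K₁ →+* algebraicClosure K Ω := (IntermediateField.inclusion hK₁le).toRingHom
  have hTK : ∀ a ∈ T, a ∈ K₁ := fun a ha => IntermediateField.subset_adjoin _ _ ha
  have hrange : ∀ w : algebraicClosure K Ω, (w : Ω) ∈ K₁ → w ∈ Set.range ι := fun w hw =>
    ⟨⟨w, hw⟩, Subtype.ext rfl⟩
  obtain ⟨Λ₁, hΛ₁⟩ : ∃ Λ₁ : K₁[X], Λ₁.map ι = Λ := by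
    refine (mem_lifts _).1 ((lifts_iff_coeff_lifts _).2 fun i => ?_)
    by_cases h0 : Λ.coeff i = 0
    · exact ⟨0, by rw [h0, map_zero]⟩
    · refine hrange _ (hTK _ ?_)
      simp only [hT, Finset.mem_union, Finset.mem_image]
      exact Or.inl (Or.inr ⟨i, mem_support_iff.2 h0, rfl⟩)
  obtain ⟨G, hGmap, hGd, hGm⟩ := lift_two ι G0 hG0m (by
    intro i j
    by_cases h0 : (G0.coeff j).coeff i = 0
    · exact ⟨0, by rw [h0, map_zero]⟩
    · refine hrange _ (hTK _ ?_)
      simp only [hT, Finset.mem_union, Finset.mem_image, Finset.mem_biUnion]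
      refine Or.inr ⟨j, mem_support_iff.2 fun h => h0 (by rw [h, coeff_zero]), i,
        mem_support_iff.2 h0, rfl⟩)
  have hKK₁ : ∀ k : K, ∀ (M : IntermediateField K₁ Ω), algebraMap K Ω k ∈ M := fun k M =>
    M.algebraMap_mem (algebraMap K K₁ k)
  have haeval : ∀ p : K₁[X], aeval t (p.map ι) = aeval t p := by
    intro p
    rw [aeval_def, aeval_def, eval₂_map]
    rfl
  have hΦt : ((Φ : Set Ω) ∪ {t, z}) ⊆ IntermediateField.adjoin K₁ {t, z} := by
    refine Set.union_subset (fun a ha => ?_) (IntermediateField.subset_adjoin _ _)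
    have ha' : a ∈ K₁ := hTK a (by
      simp only [hT, Finset.mem_union]
      exact Or.inl (Or.inl ha))
    exact (IntermediateField.adjoin K₁ {t, z}).algebraMap_mem ⟨a, ha'⟩
  refine ⟨K₁, hfin, Λ₁, 2 * d₀ + 1, l, Θ, η, z, G, ?_, by omega, ?_, ?_, ?_, ?_, ?_, ?_, hGm, ?_,
    ?_, ?_⟩
  · rw [← hΛ₁, map_map]
    rfl
  · intro θ hθ
    refine alg_mono (fun m hm => ?_) (hΘK θ hθ)
    exact adjoin_sub (fun k => hKK₁ k _) (IntermediateField.subset_adjoin _ _) hm
  · rw [hη, ← haeval]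
    congr 1
    simp [hΛ₁]
  · intro h
    apply hηn
    refine adjoin_sub (fun k => ?_) (IntermediateField.subset_adjoin _ _) h
    exact (IntermediateField.adjoin (algebraicClosure K Ω) _).algebraMap_mem (ι k)
  · intro s hs
    refine adjoin_sub (fun k => hKK₁ k _) ?_ (hSΘ s hs)
    refine Set.Subset.trans ?_ (IntermediateField.subset_adjoin _ _)
    intro a ha
    simp only [Set.mem_union, Set.mem_insert_iff, Set.mem_singleton_iff] at ha ⊢
    tauto
  · intro θ hθ
    exact adjoin_sub (fun k => hKK₁ k _) hΦt (hΦz θ (Finset.mem_insert_of_mem hθ))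
  · exact adjoin_sub (fun k => hKK₁ k _) hΦt (hΦz η (Finset.mem_insert_self _ _))
  · rw [hGd]; exact hG0d
  · rw [← hGmap, eval₂_map] at hG0e
    have h1 : ((aeval t : (algebraicClosure K Ω)[X] →ₐ[algebraicClosure K Ω] Ω).toRingHom).comp
        (mapRingHom ι) = (aeval t : K₁[X] →ₐ[K₁] Ω).toRingHom := by
      refine RingHom.ext fun p => ?_
      exact haeval p
    rw [h1] at hG0e
    exact hG0e
  · let _ : Algebra K₁ (algebraicClosure K Ω) := ι.toAlgebra
    have : IsScalarTower K K₁ (algebraicClosure K Ω) := IsScalarTower.of_algebraMap_eq fun _ => rfl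
    have : Algebra.IsAlgebraic K₁ (algebraicClosure K Ω) :=
      Algebra.IsAlgebraic.tower_top (K := K) K₁
    have : IsAlgClosure K₁ (algebraicClosure K Ω) := ⟨hcl.isAlgClosed, this⟩
    refine irreducible_transfer (kb := algebraicClosure K Ω) G ?_
    have h1 : G.map (mapRingHom (algebraMap K₁ (algebraicClosure K Ω))) = G0 := hGmap
    rw [h1]
    exact hG0i

end Pool.Agent.Helper33.SYM
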