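import Pool.Agent.Helper16.SYM.Defs

/-! Project SYM (MP_9410e4_ag), piece D4: auxiliary results. -/

namespace Pool.Agent.Helper33.SYM

open Polynomial IntermediateField

theorem sub_left {Ω : Type*} [DecidableEq Ω] (Φ Ψ : Finset Ω) (T : Set Ω) :
    (Φ : Set Ω) ∪ T ⊆ ((Φ ∪ Ψ : Finset Ω) : Set Ω) ∪ T := by
  rw [Finset.coe_union]
  exact Set.union_subset_union_left _ Set.subset_union_left

theorem sub_right {Ω : Type*} [DecidableEq Ω] (Φ Ψ : Finset Ω) (T : Set Ω) :
    (Ψ : Set Ω) ∪ T ⊆ ((Φ ∪ Ψ : Finset Ω) : Set Ω) ∪ T := by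
  rw [Finset.coe_union]
  exact Set.union_subset_union_left _ Set.subset_union_right

/-- an element of `F(T)` lies in `K(Φ, T)` for a finite subset `Φ` of `F` -/
theorem exists_finset_adjoin {K F Ω : Type*} [Field K] [Field F] [Field Ω] [Algebra K Ω]
    [Algebra F Ω] (T : Set Ω) {s : Ω} (hs : s ∈ adjoin F T) :
    ∃ Φ : Finset Ω, (∀ φ ∈ Φ, φ ∈ Set.range (algebraMap F Ω)) ∧
      s ∈ adjoin K ((Φ : Set Ω) ∪ T) := by
  classical
  induction hs using adjoin_induction with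
  | mem x hx =>
    exact ⟨∅, by simp, subset_adjoin _ _ (Or.inr hx)⟩
  | algebraMap x =>
    refine ⟨{algebraMap F Ω x}, ?_, subset_adjoin _ _ (Or.inl (by simp))⟩
    intro φ hφ
    rw [Finset.mem_singleton] at hφ
    exact ⟨x, hφ.symm⟩
  | add x y _ _ hx hy =>
    obtain ⟨Φ, h1, h2⟩ := hx
    obtain ⟨Ψ, h3, h4⟩ := hy
    refine ⟨Φ ∪ Ψ, fun φ hφ => ?_, add_mem (adjoin.mono K _ _ (sub_left _ _ _) h2)
      (adjoin.mono K _ _ (sub_right _ _ _) h4)⟩
    rcases Finset.mem_union.1 hφ with h | h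
    · exact h1 φ h
    · exact h3 φ h
  | inv x _ hx =>
    obtain ⟨Φ, h1, h2⟩ := hx
    exact ⟨Φ, h1, inv_mem h2⟩
  | mul x y _ _ hx hy =>
    obtain ⟨Φ, h1, h2⟩ := hx
    obtain ⟨Ψ, h3, h4⟩ := hy
    refine ⟨Φ ∪ Ψ, fun φ hφ => ?_, mul_mem (adjoin.mono K _ _ (sub_left _ _ _) h2)
      (adjoin.mono K _ _ (sub_right _ _ _) h4)⟩
    rcases Finset.mem_union.1 hφ with h | h
    · exact h1 φ h
    · exact h3 φ h

theorem exists_finset_adjoin' {K F Ω : Type*} [Field K] [Field F] [Field Ω] [Algebra K Ω]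
    [Algebra F Ω] (T : Set Ω) (S : Finset Ω) (hS : ∀ s ∈ S, s ∈ adjoin F T) :
    ∃ Φ : Finset Ω, (∀ φ ∈ Φ, φ ∈ Set.range (algebraMap F Ω)) ∧
      ∀ s ∈ S, s ∈ adjoin K ((Φ : Set Ω) ∪ T) := by
  classical
  induction S using Finset.induction_on with
  | empty => exact ⟨∅, by simp, by simp⟩
  | insert a S _ ih =>
    obtain ⟨Φ, h1, h2⟩ := ih (fun s hs => hS s (Finset.mem_insert_of_mem hs))
    obtain ⟨Ψ, h3, h4⟩ := exists_finset_adjoin (K := K) T (hS a (Finset.mem_insert_self _ _))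
    refine ⟨Φ ∪ Ψ, ?_, ?_⟩
    · intro φ hφ
      rcases Finset.mem_union.1 hφ with h | h
      · exact h1 φ h
      · exact h3 φ h
    · intro s hs
      rcases Finset.mem_insert.1 hs with rfl | hs
      · exact adjoin.mono K _ _ (sub_right _ _ _) h4
      · exact adjoin.mono K _ _ (sub_left _ _ _) (h2 s hs)

theorem adjoin_sub {K K₁ Ω : Type*} [Field K] [Field K₁] [Field Ω] [Algebra K Ω] [Algebra K₁ Ω]
    {S : Set Ω} {M : IntermediateField K₁ Ω} (hK : ∀ k : K, algebraMap K Ω k ∈ M) (hS : S ⊆ M)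
    {s : Ω} (hs : s ∈ adjoin K S) : s ∈ M := by
  induction hs using adjoin_induction with
  | mem x hx => exact hS hx
  | algebraMap x => exact hK x
  | add x y _ _ hx hy => exact add_mem hx hy
  | inv x _ hx => exact inv_mem hx
  | mul x y _ _ hx hy => exact mul_mem hx hy

theorem alg_mono {K K₁ Ω : Type*} [Field K] [Field K₁] [Field Ω] [Algebra K Ω] [Algebra K₁ Ω]
    {M : IntermediateField K Ω} {M₁ : IntermediateField K₁ Ω} (h : ∀ m ∈ M, m ∈ M₁) {θ : Ω}
    (hθ : IsAlgebraic M θ) : IsAlgebraic M₁ θ := by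
  let f : M →+* M₁ := (algebraMap M Ω).codRestrict M₁ (fun m => h m m.2)
  exact hθ.ringHom_of_comp_eq f (RingHom.id Ω) f.injective (by ext m; rfl)

/-- a primitive element that is integral over `k[t]` -/
theorem exists_prim {k Ω : Type*} [Field k] [CharZero k] [Field Ω] [Algebra k Ω] (t : Ω)
    (ht : Transcendental k t) (Φ : Finset Ω) (hΦ : ∀ φ ∈ Φ, IsAlgebraic (adjoin k {t}) φ) :
    ∃ (z : Ω) (G : k[X][X]), (∀ φ ∈ Φ, φ ∈ adjoin k {t, z}) ∧ G.Monic ∧ 0 < G.natDegree ∧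
      Irreducible G ∧ G.eval₂ (aeval t : k[X] →ₐ[k] Ω).toRingHom z = 0 := by
  classical
  set F := adjoin k {t} with hF
  set M := adjoin F (Φ : Set Ω) with hM
  have : CharZero F := charZero_of_injective_algebraMap (algebraMap k F).injective
  have : FiniteDimensional F M := finiteDimensional_adjoin (fun φ hφ => (hΦ φ hφ).isIntegral)
  obtain ⟨α, hα⟩ := Field.exists_primitive_element F M
  -- `α` generates
  have hgen : ∀ φ ∈ Φ, φ ∈ adjoin F {(α : Ω)} := by
    intro φ hφ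
    have h1 : (⟨φ, subset_adjoin _ _ hφ⟩ : M) ∈ F⟮α⟯ := by rw [hα]; trivial
    have h2 : φ ∈ lift F⟮α⟯ := mem_lift (⟨φ, subset_adjoin _ _ hφ⟩ : M) |>.2 h1
    rwa [lift_adjoin_simple] at h2
  -- `α` is algebraic over `k[t]`
  let _ : Algebra k[X] Ω := (aeval t : k[X] →ₐ[k] Ω).toRingHom.toAlgebra
  have hmap : ∀ f : k[X], algebraMap k[X] Ω f = aeval t f := fun f => rfl
  have hinj : Function.Injective (algebraMap k[X] Ω) := by
    intro f g hfg
    exact transcendental_iff_injective.1 ht hfg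
  have : FaithfulSMul k[X] Ω := (faithfulSMul_iff_algebraMap_injective _ _).2 hinj
  have hα1 : IsAlgebraic F (α : Ω) :=
    (IsIntegral.of_finite F α).isAlgebraic.algebraMap
  have hα2 : IsAlgebraic (Algebra.adjoin k {t}) (α : Ω) := by
    open algebraAdjoinAdjoin in
    exact (IsFractionRing.isAlgebraic_iff (Algebra.adjoin k {t}) F Ω).2 hα1
  have hα3 : IsAlgebraic k[X] (α : Ω) := by
    let f : k[X] →+* Algebra.adjoin k {t} :=
      (aeval (⟨t, Algebra.self_mem_adjoin_singleton k t⟩ : Algebra.adjoin k {t})).toRingHom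
    have hcoe : ∀ p : k[X], ((f p : Algebra.adjoin k {t}) : Ω) = aeval t p := fun p =>
      aeval_subalgebra_coe p _ _
    refine IsAlgebraic.of_ringHom_of_comp_eq f (RingHom.id Ω) hα2 ?_ Function.injective_id ?_
    · rintro ⟨y, hy⟩
      rw [Algebra.adjoin_singleton_eq_range_aeval] at hy
      obtain ⟨p, hp⟩ := hy
      exact ⟨p, Subtype.ext ((hcoe p).trans hp)⟩
    · ext p
      · exact hcoe (C p)
      · exact hcoe X
  obtain ⟨b, hb, hint⟩ := hα3.exists_integral_multiple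
  set z : Ω := b • (α : Ω) with hz
  have hzb : z = aeval t b * (α : Ω) := by rw [hz, Algebra.smul_def, hmap]
  have hb0 : aeval t b ≠ 0 := by
    intro h
    apply hb
    apply hinj
    rw [hmap, hmap, h, map_zero]
  have : IsDomain k[X] := inferInstance
  refine ⟨z, minpoly k[X] z, ?_, minpoly.monic hint, minpoly.natDegree_pos hint,
    minpoly.irreducible hint, ?_⟩
  · intro φ hφ
    have h1 := hgen φ hφ
    have hle : adjoin k {t} ≤ adjoin k {t, z} := adjoin.mono _ _ _ (by simp)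
    refine adjoin_sub (fun x : F => hle x.2) ?_ h1
    rw [Set.singleton_subset_iff]
    have h2 : (α : Ω) = z / aeval t b := by rw [hzb]; field_simp
    rw [SetLike.mem_coe, h2]
    exact div_mem (subset_adjoin _ _ (by simp))
      (hle (algebra_adjoin_le_adjoin _ _ (aeval_mem_adjoin_singleton _ _)))
  · have := minpoly.aeval k[X] z
    rwa [aeval_def] at this

end Pool.Agent.Helper33.SYM
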